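import Pool.Agent.H773.CS.Stm

set_option autoImplicit false

/-! Project CS (helper773), task H (helper25): basic properties of `HH`. -/

namespace Pool.Agent.H25.CS

open Finset
open Pool.Agent.H773.CS

variable {P : ℕ} [NeZero P]

/-- the indicator of `N` -/
def ind (N : Finset (ZMod P × Bool)) (v : ZMod P × Bool) : ℕ := if v ∈ N then 1 else 0

/-- the number of elements of `N` over `j` -/
def D (N : Finset (ZMod P × Bool)) (j : ZMod P) : ℕ := ind N (j, true) + ind N (j, false)

theorem ind_le (N : Finset (ZMod P × Bool)) (v : ZMod P × Bool) : ind N v ≤ 1 := by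
  unfold ind
  split_ifs <;> omega

theorem D_le (N : Finset (ZMod P × Bool)) (j : ZMod P) : D N j ≤ 2 := by
  unfold D
  have h1 := ind_le N (j, true)
  have h2 := ind_le N (j, false)
  omega

theorem HH_eq (N : Finset (ZMod P × Bool)) (y : ZMod P) : HH N y = ∑ j, D N j * D N (j + y) := by
  unfold HH
  rw [Finset.card_filter, Fintype.sum_prod_type]
  refine sum_congr rfl fun j _ => ?_
  rw [Fintype.sum_prod_type]
  simp only [Fintype.sum_bool, D, ind]
  by_cases h1 : (j, true) ∈ N <;> by_cases h2 : (j, false) ∈ N <;>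
    by_cases h3 : (j + y, true) ∈ N <;> by_cases h4 : (j + y, false) ∈ N <;>
    simp [h1, h2, h3, h4]

theorem card_eq (N : Finset (ZMod P × Bool)) : N.card = ∑ j, D N j := by
  have h : N.card = ∑ v : ZMod P × Bool, ind N v := by
    unfold ind
    rw [← Finset.card_filter]
    congr 1
    ext v
    simp
  rw [h, Fintype.sum_prod_type]
  refine sum_congr rfl fun j _ => ?_
  rw [Fintype.sum_bool]
  rfl

theorem shift_sum (f : ZMod P → ℕ) (y : ZMod P) : ∑ j, f (j + y) = ∑ j, f j :=
  Equiv.sum_comp (Equiv.addRight y) f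

theorem tri {a b c : ℕ} (ha : a ≤ 2) (hb : b ≤ 2) (hc : c ≤ 2) : a * b + b * c ≤ a * c + 2 * b := by
  interval_cases a <;> interval_cases b <;> omega

theorem t_H : S_H := by
  intro P _ N
  refine ⟨?_, ?_, ?_⟩
  · intro y
    rw [HH_eq, card_eq, mul_sum]
    refine sum_le_sum fun j _ => ?_
    rw [mul_comm]
    exact Nat.mul_le_mul_right _ (D_le N (j + y))
  · simp only [HH_eq]
    rw [sum_comm]
    have h : ∀ j ∈ (univ : Finset (ZMod P)), ∑ y, D N j * D N (j + y) = D N j * N.card := by
      intro j _
      rw [← mul_sum, card_eq N]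
      congr 1
      exact Equiv.sum_comp (Equiv.addLeft j) (D N)
    rw [sum_congr rfl h, ← sum_mul, ← card_eq, sq]
  · intro y y'
    have h1 : HH N y' = ∑ j, D N (j + y) * D N (j + y + y') := by
      rw [HH_eq]
      exact (shift_sum (fun j => D N j * D N (j + y')) y).symm
    have h2 : N.card = ∑ j, D N (j + y) := by
      rw [card_eq]
      exact (shift_sum (D N) y).symm
    rw [h1, h2, HH_eq, HH_eq, mul_sum, ← sum_add_distrib, ← sum_add_distrib]
    refine sum_le_sum fun j _ => ?_
    rw [← add_assoc]
    exact tri (D_le N j) (D_le N (j + y)) (D_le N (j + y + y'))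

end Pool.Agent.H25.CS
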